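import Pool.Agent.Helper83.T5C.StB
import Pool.Agent.Helper76.S7.StC
import Pool.Agent.Helper78.W3.StC

/-!
# Levels `5 * 7^n`, `W_5 = +1`: upper bound for new symbols

The shape of `Helper76/TK7/StK.lean` (levels `3 * 7^n`, the SAME plane, all modules closed: `Pool/Agent/Helper*/TK7/M_*.lean`), `Helper76/Q5P3/StC.lean` (levels `5 * 3^n`, the same group `HTy`, `Pool/Agent/Helper*/Q5P3/M_*.lean`) and `Helper76/Q7P5/StC.lean` (levels `7 * 5^n`, the same shape of the spaces, `Pool/Agent/Helper*/Q7P5/M_*.lean`), on the plane of W7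
(`Helper76/S7/StC.lean`: `Pt`, `trp`, `ng`, `dR`, `anti7`, `inv1`, `inv7`, `Dv`, `Ty`, `Kl`, `Iv`; closed theorems DIMK `Pool.Agent.Helper71.S7.hDimK Pool.Agent.Helper10.W3.hTrq`, SPLIT `Pool.Agent.Helper36.S7.hSplit`), with the group of the matrices `(a 7^μ b; 7c d)` of type `HTy` of `Helper28/T5/Defs.lean` (determinant one and `5 ∣ c`, or
determinant five and `5 ∣ a, c, d`). Standard matrices have a lower left entry divisible by `5`. RULE FOR REFLECTIONS. `val π = {u, v} = G(gu) - G(gv)` for the path `π` from `v` to `u`, `F_π(p)` the value at the coordinates `p` of `g`. `b = (0 1; 5 0)` (even exponents, `μ = 1`), `b = (0 1; 35 0)` (odd exponents, `μ = 0`): if `g` has coordinates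
`p = (x, y)`, then `b⁻¹ g b` has coordinates `swH p = (y/5, 5x)`, `* g *` has `ng p`, `g M` has `trp μ a b c d p` for `M = (a 7^μ b; 7c d)` of type `HTy`. `G∘* ≈ G`, `G∘b ≈ -G`. So for `ρ = M`: the value of `G` at the path `g ρ π` is `F_π(trp M p)`; for `ρ = b M` (up to a scalar): `-F_π(trp M (swH p))`; for `ρ = * M`: `F_π(trp M (ng p))`; for
`ρ = b * M`: `-F_π(trp M (ng (swH p)))`. All relations and the dimensions `42, 1806` (odd, `m = 1, 2`), `258` (even, `m = 1`) were checked by machine (`42` and `258` also against the spaces of level `5·7^3` and `5·7^4`).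
-/

set_option autoImplicit false

namespace Pool.Agent.Helper76.Q5P7

open Pool.Agent.Helper14.CV (Homog EqC act StFar)
open Pool.Agent.Helper76.S7 (Pt trp ng dR Iv Kl Dv Ty anti7 inv1 inv7 S7DimK S7Split)
open Pool.Agent.Helper28.T5
open Pool.Agent.Helper83.T5C (UBH)

/-- The matrix `(a, 7^μ b; 7 c, d)` is of type `HTy` and has plane coordinates `(x, y)`. -/
def PlH (μ : ℕ) {q q' : ℕ} (a b c d : ℤ) (x : ZMod q) (y : ZMod q') : Prop :=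
  HTy a (7 ^ μ * b) (7 * c) d ∧ (b : ZMod q) = x * a ∧ (c : ZMod q') = y * d

/-- The entry `Y` (divisible by `5`) of the standard matrix `(1, 7^μ X; 7 Y, 1 + 7^(μ+1) X Y)`, `X = x.val`. -/
noncomputable def rYH (μ : ℕ) {q q' : ℕ} (x : ZMod q) (y : ZMod q') : ℤ :=
  5 * ((y * (5 * (1 - 7 ^ (μ + 1) * ((x.val : ℕ) : ZMod q') * y))⁻¹).val : ℤ)

/-- The value of the symbol of `G` on the path from `g v` to `g u`, `g` the standard matrix with plane coordinates `(x, y)`. -/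
noncomputable def edgeH {R : Type} [AddCommGroup R] (μ : ℕ) {q q' : ℕ} (u1 u2 v1 v2 : ℤ)
    (G : ℤ → ℤ → R) (x : ZMod q) (y : ZMod q') : R :=
  G (u1 + 7 ^ μ * (x.val : ℤ) * u2) (7 * rYH μ x y * u1 + (1 + 7 ^ (μ + 1) * (x.val : ℤ) * rYH μ x y) * u2)
  - G (v1 + 7 ^ μ * (x.val : ℤ) * v2) (7 * rYH μ x y * v1 + (1 + 7 ^ (μ + 1) * (x.val : ℤ) * rYH μ x y) * v2)

/-- PLA. The standard matrix is of type `HTy` (first case) and has the right coordinates. (`5 (1 - 7^(μ+1) X y)` is a unit of `ZMod (7^s)`.) Models: `Pool/Agent/Helper80/Q5P3/M_PLA.lean` (`3 → 7`), `Pool/Agent/Helper94/TK7/M_PLAK7.lean`. -/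
def HPlA : Prop := ∀ (μ r s : ℕ) (x : ZMod (7 ^ r)) (y : ZMod (7 ^ s)),
  PlH μ 1 (x.val : ℤ) (rYH μ x y) (1 + 7 ^ (μ + 1) * (x.val : ℤ) * rYH μ x y) x y

/-- The content of EDG. -/
def HEdg : Prop := ∀ (R : Type) (_ : AddCommGroup R) (μ r s : ℕ) (G : ℤ → ℤ → R),
  SymH 7 (r + μ) (s + 1) G → ∀ (u1 u2 v1 v2 : ℤ), (u1 ≠ 0 ∨ u2 ≠ 0) → (v1 ≠ 0 ∨ v2 ≠ 0) →
  ∀ (x : ZMod (7 ^ r)) (y : ZMod (7 ^ s)) (a b c d : ℤ), PlH μ a b c d x y →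
  edgeH μ u1 u2 v1 v2 G x y = G (a * u1 + 7 ^ μ * b * u2) (7 * c * u1 + d * u2) -
    G (a * v1 + 7 ^ μ * b * v2) (7 * c * v1 + d * v2)

/-- EDG (from PLA). Models: `Pool/Agent/Helper51/Q5P3/M_EDG.lean` (`3 → 7`), `Pool/Agent/Helper46/TK7/M_EDGK7.lean`. -/
def StHEdg : Prop := HPlA → HEdg

/-- Balanced new symbols, even exponent `n = 2k`. -/
def BalEH (k : ℕ) (G : ℤ → ℤ → ℂ) : Prop :=
  SymH 7 k k G ∧ EqC (∑ i ∈ Finset.range 7, act 1 (i * 7 ^ (k - 1)) 0 1 G) 0 ∧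
    EqC (∑ i ∈ Finset.range 7, act 1 0 (5 * i * 7 ^ (k - 1)) 1 G) 0 ∧
    EqC (act 0 (-1) 5 0 G) (-G) ∧ EqC (act (-1) 0 0 1 G) G

/-- Balanced new symbols, odd exponent `n = 2k+1`. -/
def BalOH (k : ℕ) (G : ℤ → ℤ → ℂ) : Prop :=
  SymH 7 k (k + 1) G ∧ EqC (∑ i ∈ Finset.range 7, act 1 (i * 7 ^ (k - 1)) 0 1 G) 0 ∧
    EqC (∑ i ∈ Finset.range 7, act 1 0 (5 * i * 7 ^ k) 1 G) 0 ∧
    EqC (act 0 (-1) 35 0 G) (-G) ∧ EqC (act (-1) 0 0 1 G) G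

/-- BAL. Transport to the balanced form by `D = (1 0; 0 7^k)`. Models: `Pool/Agent/Helper73/Q5P3/M_BAL.lean` (`3 → 7`), `Pool/Agent/Helper96/TK7/M_BALK7.lean`. -/
def HBal : Prop := ∀ (k : ℕ) (G : ℤ → ℤ → ℂ), 1 ≤ k →
  (NewSymH 7 (2 * k) G → BalEH k (act 1 0 0 (7 ^ k) G)) ∧
  (NewSymH 7 (2 * k + 1) G → BalOH k (act 1 0 0 (7 ^ k) G)) ∧
  (Homog G → EqC (act 1 0 0 (7 ^ k) G) 0 → EqC G 0)

/-! ### Functions on the plane -/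

/-- `(x, y) ↦ (y/5, 5x)`. -/
def swH {m : ℕ} (p : Pt m) : Pt m := (p.2 * (5 : ZMod (7 ^ m))⁻¹, 5 * p.1)

/-- Odd exponent (`μ = 0`): the circle around `1/2`, matrix `(35 -17; 70 -35) = b (2 -1; 35 -17)`. -/
def cOH {m : ℕ} (p : Pt m) : Pt m := trp 0 2 (-1) 5 (-17) (swH p)

/-- Odd exponent: the rotation of order two which exchanges `∞` and `2/7`, matrix `(10 -3; 35 -10)` (determinant five, an element of the group). -/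
def r2H {m : ℕ} (p : Pt m) : Pt m := trp 0 10 (-3) 5 (-10) p

/-- Odd exponent: the rotation of order two which exchanges `∞` and `1/3`, matrix `(35 -12; 105 -35)`, `b * (3 -1; -35 12) = -(35 -12; 105 -35)`. -/
def r3H {m : ℕ} (p : Pt m) : Pt m := trp 0 3 (-1) (-5) 12 (ng (swH p))

/-- Odd exponent: the matrix `(7 -3; 35 -14)`, which maps `∞, 1/2, 1/3` to `1/5, 1/7, 2/7`, `b * (5 -2; -35 15) = -5 (7 -3; 35 -14)` (not an involution). -/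
def gOH {m : ℕ} (p : Pt m) : Pt m := trp 0 5 (-2) (-5) 15 (ng (swH p))

/-- Even exponent (`μ = 1`): the circle around `7/2`, matrix `(35 -122; 10 -35) = b (2 -7; 35 -122)`. -/
def c6H {m : ℕ} (p : Pt m) : Pt m := trp 1 2 (-1) 5 (-122) (swH p)

/-- Even exponent: the circle which exchanges `8/5, 5/3` and `2, 9/5`, matrix `(35 -61; 20 -35) = b (4 -7; 35 -61)`. -/
def c8H {m : ℕ} (p : Pt m) : Pt m := trp 1 4 (-1) 5 (-61) (swH p)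

/-- Even exponent: the circle over `[8/5, 5/3]`, matrix `(49 -80; 30 -49)`, `b (30 -49; 245 -400) = 5 (49 -80; 30 -49)`. -/
def d8H {m : ℕ} (p : Pt m) : Pt m := trp 1 30 (-7) 35 (-400) (swH p)

/-- Even exponent: the circle which exchanges `3/5, 5/9` and `1/2, 11/20`, matrix `(105 -58; 190 -105) = b (38 -21; 105 -58)`. -/
def c9H {m : ℕ} (p : Pt m) : Pt m := trp 1 38 (-3) 15 (-58) (swH p)

/-- Even exponent: the circle over `[1/2, 11/20]`, matrix `(21 -11; 40 -21)`, `b (40 -21; 105 -55) = 5 (21 -11; 40 -21)`. -/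
def d9H {m : ℕ} (p : Pt m) : Pt m := trp 1 40 (-3) 15 (-55) (swH p)

/-- Even exponent: the circle over `[12/5, 5/2]`, matrix `(49 -120; 20 -49)`, `b (20 -49; 245 -600) = 5 (49 -120; 20 -49)`. -/
def cBH {m : ℕ} (p : Pt m) : Pt m := trp 1 20 (-7) 35 (-600) (swH p)

/-- Even exponent: the circle over `[13/5, 3]`, matrix `(14 -39; 5 -14)`, `b (5 -14; 70 -195) = 5 (14 -39; 5 -14)`. -/
def cEH {m : ℕ} (p : Pt m) : Pt m := trp 1 5 (-2) 10 (-195) (swH p)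

/-- Even exponent: the rotation of order two which exchanges `1` and `3/2`, matrix `(7 -10; 5 -7)`, `b * (5 -7; -35 50) = -5 (7 -10; 5 -7)`. -/
def rDH {m : ℕ} (p : Pt m) : Pt m := trp 1 5 (-1) (-5) 50 (ng (swH p))

/-- Even exponent: the rotation of order two which exchanges `8/5` and `3/2`, matrix `(70 -109; 45 -70)`, `b * (9 -14; -70 109) = -(70 -109; 45 -70)`. -/
def rAH {m : ℕ} (p : Pt m) : Pt m := trp 1 9 (-2) (-10) 109 (ng (swH p))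

/-- Even exponent: the rotation of order two which exchanges `2` and `12/5`, matrix `(35 -82; 15 -35)`, `b * (3 -7; -35 82) = -(35 -82; 15 -35)`. -/
def rCH {m : ℕ} (p : Pt m) : Pt m := trp 1 3 (-1) (-5) 82 (ng (swH p))

/-- Even exponent: the rotation of order two which exchanges `1` and `2/3`, matrix `(7 -5; 10 -7)`, `b * (10 -7; -35 25) = -5 (7 -5; 10 -7)`. -/
def rHH {m : ℕ} (p : Pt m) : Pt m := trp 1 10 (-1) (-5) 25 (ng (swH p))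

/-- Even exponent: the matrix `(35 -89; 55 -140) = b (11 -28; 35 -89)`, which maps `13/5` to `2/3` and `5/2` to `3/5`. -/
def g2H {m : ℕ} (p : Pt m) : Pt m := trp 1 11 (-4) 5 (-89) (swH p)

/-- Even exponent: the matrix `(65 -28; 35 -15)` (determinant five, an element of the group), which maps `1/2` to `9/5` and `2/5` to `2`. -/
def g4H {m : ℕ} (p : Pt m) : Pt m := trp 1 65 (-4) 5 (-15) p

/-- Even exponent: the matrix `(-15 28; -35 65)`, the inverse of the last one up to a scalar. -/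
def k4H {m : ℕ} (p : Pt m) : Pt m := trp 1 (-15) 4 (-5) 65 p

/-- Even exponent: the matrix `(20 -63; 35 -110)` (determinant five, an element of the group), which maps `17/5` to `5/9` and `3` to `3/5`. -/
def g5H {m : ℕ} (p : Pt m) : Pt m := trp 1 20 (-9) 5 (-110) p

/-- Even exponent: the matrix `(-110 63; -35 20)`, the inverse of the last one up to a scalar. -/
def k5H {m : ℕ} (p : Pt m) : Pt m := trp 1 (-110) 9 (-5) 20 p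

/-- TYP. The maps above and their types. Proof as TYPK7, TYP of Q5P3, Q7P5 (`Pool/Agent/Helper75/TK7/M_TYPK7.lean`, `Pool/Agent/Helper55/Q5P3/M_TYP.lean`, `Pool/Agent/Helper98/Q7P5/M_TYP.lean`): `trp μ M' (trp μ M p) = trp μ (M M') p`, `trp` does not change under scalars prime to `7`, `swH (trp μ a b c d p) = trp μ d (c/5) (5b) a (swH p)` (`5 ∣ c`),
`ng (trp μ a b c d p) = trp μ a (-b) (-c) d (ng p)`, `swH (swH p) = p`, `ng (swH p) = swH (ng p)`; so all relations are identities of matrices up to a scalar (`gOH (swH p) = cOH (gOH p)`: `(0 1; 35 0) (7 -3; 35 -14)` and `(7 -3; 35 -14) (35 -17; 70 -35)` are proportional; `r3H (gOH p) = r2H p`; `g4H (c8H p) = swH (g4H p)`; `g5H (c9H p) = c6H (g5H p)`).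
Derivatives: `det/a²`, `det/d²` modulo `7` (and `1/5`, `5` for `swH`): `r2H`: `6, 6`; `g4H`: `3, 5`; `k4H`: `5, 3`; `g5H`: `5, 3`; `k5H`: `3, 5`; `c8H (d8H p) = trp 1 115 (-27) 10 (-115) p` and `c9H (d9H p) = trp 1 115 (-9) 30 (-115) p`: `6, 6` (type `0`). -/
def HTyp : Prop := ∀ m : ℕ,
  (Kl (ng : Pt m → Pt m) swH ∧ Ty 0 (ng : Pt m → Pt m) ∧ Ty 1 (swH : Pt m → Pt m) ∧ Ty 1 (fun p : Pt m => ng (swH p))) ∧
  (Kl (dR 0 : Pt m → Pt m) cOH ∧ Ty 0 (dR 0 : Pt m → Pt m) ∧ Ty 1 (cOH : Pt m → Pt m) ∧ Ty 1 (fun p : Pt m => dR 0 (cOH p))) ∧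
  ((Iv (r2H : Pt m → Pt m) ∧ Ty 0 (r2H : Pt m → Pt m)) ∧ (Iv (r3H : Pt m → Pt m) ∧ Ty 1 (r3H : Pt m → Pt m))) ∧
  (Ty 1 (gOH : Pt m → Pt m) ∧ (∀ p : Pt m, gOH (swH p) = cOH (gOH p)) ∧ ∀ p : Pt m, r3H (gOH p) = r2H p) ∧
  (Kl (dR 1 : Pt m → Pt m) c6H ∧ Ty 0 (dR 1 : Pt m → Pt m) ∧ Ty 1 (c6H : Pt m → Pt m) ∧ Ty 1 (fun p : Pt m => dR 1 (c6H p))) ∧
  (Kl (c8H : Pt m → Pt m) d8H ∧ Ty 1 (c8H : Pt m → Pt m) ∧ Ty 1 (d8H : Pt m → Pt m) ∧ Ty 0 (fun p : Pt m => c8H (d8H p))) ∧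
  (Kl (c9H : Pt m → Pt m) d9H ∧ Ty 1 (c9H : Pt m → Pt m) ∧ Ty 1 (d9H : Pt m → Pt m) ∧ Ty 0 (fun p : Pt m => c9H (d9H p))) ∧
  ((Iv (cBH : Pt m → Pt m) ∧ Ty 1 (cBH : Pt m → Pt m)) ∧ (Iv (cEH : Pt m → Pt m) ∧ Ty 1 (cEH : Pt m → Pt m)) ∧
    (Iv (rDH : Pt m → Pt m) ∧ Ty 1 (rDH : Pt m → Pt m)) ∧ (Iv (rAH : Pt m → Pt m) ∧ Ty 1 (rAH : Pt m → Pt m)) ∧
    (Iv (rCH : Pt m → Pt m) ∧ Ty 1 (rCH : Pt m → Pt m)) ∧ (Iv (rHH : Pt m → Pt m) ∧ Ty 1 (rHH : Pt m → Pt m))) ∧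
  Ty 1 (g2H : Pt m → Pt m) ∧
  ((Ty 0 (g4H : Pt m → Pt m) ∧ Ty 0 (k4H : Pt m → Pt m)) ∧ (∀ p : Pt m, g4H (k4H p) = p) ∧ (∀ p : Pt m, k4H (g4H p) = p) ∧
    ∀ p : Pt m, g4H (c8H p) = swH (g4H p)) ∧
  ((Ty 0 (g5H : Pt m → Pt m) ∧ Ty 0 (k5H : Pt m → Pt m)) ∧ (∀ p : Pt m, g5H (k5H p) = p) ∧ (∀ p : Pt m, k5H (g5H p) = p) ∧
    ∀ p : Pt m, g5H (c9H p) = c6H (g5H p))

/-- The content of DIM1. -/
def HDim1 : Prop := ∀ m : ℕ, 1 ≤ m → ∀ (r : Pt m → Pt m) (n : ℕ) (e : ℤ), Iv r → Ty n r → (e = 1 ∨ e = -1) →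
  2 * (Module.finrank ℂ (inv1 r (e : ℂ)) : ℤ) = 36 * 49 ^ (m - 1) + e * n * (6 * 7 ^ (m - 1))

/-- DIM1 (from TRQ). One involution, both types (type `1` is the second part of `S7DimK`): average of the traces over `{1, r}`: `36·49^(m-1)` for the identity, `0` for type `0`, `6·7^(m-1)` for an involution of type `1`. Models: `Pool/Agent/Helper9/Q5P3/M_DIM1.lean` (`p = 3`), `Pool/Agent/Helper71/S7/M_DimK.lean` (private lemmas; copy the file). -/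
def StHDim1 : Prop := Pool.Agent.Helper78.W3.S3Trq → HDim1

/-- The value `{∞, 1/5}` in terms of `e2 = {∞, 2/7}`, `e3 = {∞, 1/3}`. -/
def alH {m : ℕ} (e2 e3 : Pt m → ℂ) (p : Pt m) : ℂ := e2 p + e3 (gOH p)

/-- The target for odd exponents: `((f, l), (e2, e3))`, the values `{∞, 0}`, `{∞, 1/2}`, `{∞, 2/7}`, `{∞, 1/3}`. -/
def subOH (m : ℕ) : Submodule ℂ (((Pt m → ℂ) × (Pt m → ℂ)) × ((Pt m → ℂ) × (Pt m → ℂ))) where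
  carrier := {F | F.1.1 ∈ inv7 (m := m) ng swH 1 1 ∧ F.1.2 ∈ inv7 (m := m) (dR 0) cOH 1 1 ∧
    F.2.1 ∈ inv1 (m := m) r2H (-1) ∧ F.2.2 ∈ inv1 (m := m) r3H 1 ∧
    ∀ p : Pt m, alH F.2.1 F.2.2 p + alH F.2.1 F.2.2 (swH p) - F.1.2 (gOH p) - F.1.1 p = 0}
  add_mem' := by
    rintro F F' ⟨h0, h1, h2, h3, h⟩ ⟨h0', h1', h2', h3', h'⟩
    refine ⟨Submodule.add_mem _ h0 h0', Submodule.add_mem _ h1 h1', Submodule.add_mem _ h2 h2',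
      Submodule.add_mem _ h3 h3', fun p => ?_⟩
    have a1 := h p
    have b1 := h' p
    simp only [alH, Prod.fst_add, Prod.snd_add, Pi.add_apply] at a1 b1 ⊢
    linear_combination a1 + b1
  zero_mem' := ⟨Submodule.zero_mem _, Submodule.zero_mem _, Submodule.zero_mem _, Submodule.zero_mem _,
    by intro p; simp [alH]⟩
  smul_mem' := by
    rintro c F ⟨h0, h1, h2, h3, h⟩
    refine ⟨Submodule.smul_mem _ c h0, Submodule.smul_mem _ c h1, Submodule.smul_mem _ c h2,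
      Submodule.smul_mem _ c h3, fun p => ?_⟩
    have a1 := h p
    simp only [alH, Prod.smul_fst, Prod.smul_snd, Pi.smul_apply, smul_eq_mul] at a1 ⊢
    linear_combination c * a1

/-- The value `{1/2, 2/5}` in terms of `f = {∞, 0}`, `L = {∞, 1/2}`. -/
def aaH {m : ℕ} (f L : Pt m → ℂ) (p : Pt m) : ℂ := f p - L p - L (swH p)

/-- The value `{2, 8/5}` in terms of `F1 = {∞, 1}`, `D = {1, 3/2}`, `F2 = {∞, 2}`, `A = {8/5, 3/2}`. -/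
def bbH {m : ℕ} (F1 D F2 A : Pt m → ℂ) (p : Pt m) : ℂ := F1 p + D p - F2 p - A p

/-- The value `{13/5, 5/2}` (`B = {5/2, 12/5}`, `C = {12/5, 2}`, `F3 = {∞, 3}`, `E = {3, 13/5}`). -/
def ccH {m : ℕ} (F2 B C F3 E : Pt m → ℂ) (p : Pt m) : ℂ := F2 p - B p - C p - F3 p - E p

/-- The value `{3/5, 1/2}` (`H = {1, 2/3}`). -/
def hhH {m : ℕ} (L F1 F2 B C F3 E H : Pt m → ℂ) (p : Pt m) : ℂ :=
  L p - F1 p - H p + ccH F2 B C F3 E (g2H p)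

/-- The value `{17/5, 3}` (`J = {∞, 7/2}`). -/
def kkH {m : ℕ} (F3 J : Pt m → ℂ) (p : Pt m) : ℂ := F3 p + F3 (c6H p) - J p

/-- The value `{5/3, 8/5}`. -/
def yyH {m : ℕ} (f L F1 D F2 A : Pt m → ℂ) (p : Pt m) : ℂ :=
  bbH F1 D F2 A p + bbH F1 D F2 A (c8H p) + aaH f L (g4H p)

/-- The value `{11/20, 1/2}`. -/
def zzH {m : ℕ} (L F1 F2 B C F3 E J H : Pt m → ℂ) (p : Pt m) : ℂ :=
  hhH L F1 F2 B C F3 E H p + hhH L F1 F2 B C F3 E H (c9H p) + kkH F3 J (g5H p)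

/-- The twelve functions: `(((f, L), (F1, D)), (((F2, A), (B, C)), ((F3, E), (J, H))))`. -/
abbrev Fn (m : ℕ) : Type := (((Pt m → ℂ) × (Pt m → ℂ)) × ((Pt m → ℂ) × (Pt m → ℂ))) ×
  ((((Pt m → ℂ) × (Pt m → ℂ)) × ((Pt m → ℂ) × (Pt m → ℂ))) × (((Pt m → ℂ) × (Pt m → ℂ)) × ((Pt m → ℂ) × (Pt m → ℂ))))

/-- The target for even exponents: the values `{∞, 0}`, `{∞, 1/2}`, `{∞, 1}`, `{1, 3/2}`, `{∞, 2}`, `{8/5, 3/2}`, `{5/2, 12/5}`, `{12/5, 2}`, `{∞, 3}`, `{3, 13/5}`, `{∞, 7/2}`, `{1, 2/3}`. -/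
def subEH (m : ℕ) : Submodule ℂ (Fn m) where
  carrier := {F | (F.1.1.1 ∈ inv7 (m := m) ng swH 1 1 ∧ F.1.1.2 ∈ anti7 m ∧ F.1.2.1 ∈ anti7 m ∧
      F.1.2.2 ∈ inv1 (m := m) rDH 1) ∧
    (F.2.1.1.1 ∈ anti7 m ∧ F.2.1.1.2 ∈ inv1 (m := m) rAH 1 ∧ F.2.1.2.1 ∈ inv1 (m := m) cBH (-1) ∧
      F.2.1.2.2 ∈ inv1 (m := m) rCH 1) ∧
    (F.2.2.1.1 ∈ anti7 m ∧ F.2.2.1.2 ∈ inv1 (m := m) cEH (-1) ∧ F.2.2.2.1 ∈ inv7 (m := m) (dR 1) c6H 1 1 ∧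
      F.2.2.2.2 ∈ inv1 (m := m) rHH 1) ∧
    (∀ p : Pt m, yyH F.1.1.1 F.1.1.2 F.1.2.1 F.1.2.2 F.2.1.1.1 F.2.1.1.2 p +
      yyH F.1.1.1 F.1.1.2 F.1.2.1 F.1.2.2 F.2.1.1.1 F.2.1.1.2 (d8H p) = 0) ∧
    (∀ p : Pt m, zzH F.1.1.2 F.1.2.1 F.2.1.1.1 F.2.1.2.1 F.2.1.2.2 F.2.2.1.1 F.2.2.1.2 F.2.2.2.1 F.2.2.2.2 p +
      zzH F.1.1.2 F.1.2.1 F.2.1.1.1 F.2.1.2.1 F.2.1.2.2 F.2.2.1.1 F.2.2.1.2 F.2.2.2.1 F.2.2.2.2 (d9H p) = 0)}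
  add_mem' := by
    rintro F F' ⟨⟨h0, h1, h2, h3⟩, ⟨h4, h5, h6, h7⟩, ⟨h8, h9, h10, h11⟩, e0, e1⟩
      ⟨⟨h0', h1', h2', h3'⟩, ⟨h4', h5', h6', h7'⟩, ⟨h8', h9', h10', h11'⟩, e0', e1'⟩
    refine ⟨⟨Submodule.add_mem _ h0 h0', (anti7 m).add_mem h1 h1', (anti7 m).add_mem h2 h2', Submodule.add_mem _ h3 h3'⟩,
      ⟨(anti7 m).add_mem h4 h4', Submodule.add_mem _ h5 h5', Submodule.add_mem _ h6 h6', Submodule.add_mem _ h7 h7'⟩,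
      ⟨(anti7 m).add_mem h8 h8', Submodule.add_mem _ h9 h9', Submodule.add_mem _ h10 h10', Submodule.add_mem _ h11 h11'⟩,
      fun p => ?_, fun p => ?_⟩
    · have a := e0 p
      have b := e0' p
      simp only [yyH, bbH, aaH, Prod.fst_add, Prod.snd_add, Pi.add_apply] at a b ⊢
      linear_combination a + b
    · have a := e1 p
      have b := e1' p
      simp only [zzH, hhH, ccH, kkH, Prod.fst_add, Prod.snd_add, Pi.add_apply] at a b ⊢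
      linear_combination a + b
  zero_mem' := ⟨⟨Submodule.zero_mem _, (anti7 m).zero_mem, (anti7 m).zero_mem, Submodule.zero_mem _⟩,
    ⟨(anti7 m).zero_mem, Submodule.zero_mem _, Submodule.zero_mem _, Submodule.zero_mem _⟩,
    ⟨(anti7 m).zero_mem, Submodule.zero_mem _, Submodule.zero_mem _, Submodule.zero_mem _⟩,
    by intro p; simp [yyH, bbH, aaH], by intro p; simp [zzH, hhH, ccH, kkH]⟩
  smul_mem' := by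
    rintro c F ⟨⟨h0, h1, h2, h3⟩, ⟨h4, h5, h6, h7⟩, ⟨h8, h9, h10, h11⟩, e0, e1⟩
    refine ⟨⟨Submodule.smul_mem _ c h0, (anti7 m).smul_mem c h1, (anti7 m).smul_mem c h2, Submodule.smul_mem _ c h3⟩,
      ⟨(anti7 m).smul_mem c h4, Submodule.smul_mem _ c h5, Submodule.smul_mem _ c h6, Submodule.smul_mem _ c h7⟩,
      ⟨(anti7 m).smul_mem c h8, Submodule.smul_mem _ c h9, Submodule.smul_mem _ c h10, Submodule.smul_mem _ c h11⟩,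
      fun p => ?_, fun p => ?_⟩
    · have a := e0 p
      simp only [yyH, bbH, aaH, Prod.smul_fst, Prod.smul_snd, Pi.smul_apply, smul_eq_mul] at a ⊢
      linear_combination c * a
    · have a := e1 p
      simp only [zzH, hhH, ccH, kkH, Prod.smul_fst, Prod.smul_snd, Pi.smul_apply, smul_eq_mul] at a ⊢
      linear_combination c * a

/-- The content of DIMO. -/
def HDimO : Prop := ∀ m : ℕ, 1 ≤ m →
  Module.finrank ℂ (subOH m) = 36 * 49 ^ (m - 1) + 6 * 7 ^ (m - 1)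

/-- DIMO (from TYP, DIM1, DIMK, SPLIT). `a = 49^(m-1)`, `b = 7^(m-1)`. `Vf = inv7 ng swH 1 1`, `Vl = inv7 (dR 0) cOH 1 1` have dimension `9a + 3b` (types `0, 1, 1`), `V2 = inv1 r2H (-1)` has `18a` (type `0`), `V3 = inv1 r3H 1`, `VW = inv1 swH 1` have `18a + 3b`. The map `((f, l), (e2, e3)) ↦ α + α∘swH - l∘gOH - f`,
`α = alH e2 e3`, from `(Vf × Vl) × (V2 × V3)` to `VW` (`l∘gOH∘swH = l∘cOH∘gOH = l∘gOH`) is onto: for `φ` in `VW` let (SPLIT, `μ = 0`) `φ/2 = f0 + l0`, `f0` invariant under `ng`, `l0` under `dR 0`; take `f = -(f0 + f0∘swH)`, `l = l0 + l0∘cOH`, `e2 = l0 - l0∘r2H`, `e3 = l0 + l0∘r3H` (`ng` commutes with `swH`, `dR 0` with `cOH`). Then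
`e3∘gOH = l0∘gOH + l0∘r2H`, so `α = l0 + l0∘gOH`; `l∘gOH = l0∘gOH + l0∘gOH∘swH`; `α + α∘swH - l∘gOH = l0 + l0∘swH`, and the image is `(1 + swH)(l0 + f0) = φ`. The kernel is `subOH m`: `(9a+3b)·2 + 18a + (18a+3b) - (18a+3b)`. Models: `Pool/Agent/Helper21/Q7P5/M_DIMO.lean`, `Pool/Agent/Helper55/TK7/M_DIMOK7.lean`. -/
def StHDimO : Prop := HTyp → HDim1 → S7DimK → S7Split → HDimO

/-- The content of DIME. -/
def HDimE : Prop := ∀ m : ℕ, 1 ≤ m → Module.finrank ℂ (subEH m) = 252 * 49 ^ (m - 1) + 6 * 7 ^ (m - 1)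

/-- DIME (from TYP, DIMK, SPLIT). `V = anti7 m` has dimension `36a`, `Vf = inv7 ng swH 1 1`, `VJ = inv7 (dR 1) c6H 1 1` have `9a + 3b` (types `0, 1, 1`), `inv1 r 1` for `r = rDH, rAH, rCH, rHH` has `18a + 3b`, `inv1 r (-1)` for `r = cBH, cEH` has `18a - 3b`, `T8 = inv7 c8H d8H 1 1`, `T9 = inv7 c9H d9H 1 1` have `9a + 3b`
(types `1, 1, 0`). The map `F ↦ (y + y∘d8H, z + z∘d9H)`, `y = yyH f L F1 D F2 A`, `z = zzH L F1 F2 B C F3 E J H`, from the product of the twelve spaces to `T8 × T9` (`y∘c8H = y`: `aaH∘swH = aaH` and `g4H∘c8H = swH∘g4H`; `z∘c9H = z`: `kkH∘c6H = kkH` and `g5H∘c9H = c6H∘g5H`; composition with maps of type `0`, `1` preserves `anti7 m`) is onto: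
for `(φ, ψ)` let `u = -φ∘k4H/4`, `v = ψ∘k5H/4` (`u∘swH = u`, `v∘c6H = v`: from `k4H∘swH = c8H∘k4H`, `k5H∘c6H = c9H∘k5H`) and (SPLIT, `μ = 1`) `u = u1 + u2`, `v = v1 + v2`, `u1, v1` invariant under `ng`, `u2, v2` under `dR 1`; take `L = F1 = F2 = F3 = u2 + v1`, `D = A = B = C = E = H = 0`, `f = -(u1 + u1∘swH) + (v1 + v1∘swH)`,
`J = (u2 + u2∘c6H) - (v2 + v2∘c6H)`. Then `bbH = ccH = hhH = 0`, `y = aaH∘g4H` with `aaH = f - L - L∘swH = -(u + u∘swH) = -2u`, so `y = φ/2`, `y + y∘d8H = φ`; `z = kkH∘g5H` with `kkH = F3 + F3∘c6H - J = v + v∘c6H = 2v`, so `z = ψ/2`, `z + z∘d9H = ψ`. The kernel is `subEH m`: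
`4·36a + 2(9a+3b) + 4(18a+3b) + 2(18a-3b) - 2(9a+3b) = 252a + 6b`. Models: `Pool/Agent/Helper63/Q7P5/M_DIME.lean`, `Pool/Agent/Helper86/TK7/M_DIMEK7.lean` (several relations). -/
def StHDimE : Prop := HTyp → S7DimK → S7Split → HDimE

/-! ### Representatives -/

/-- Fifty-six representatives with bottom row proportional to `(0, 1)` modulo `5` (of the classes of `SL₂(ℤ)` modulo `(* 7*; 35* *)`). -/
def LH01 : List (ℤ × ℤ × ℤ × ℤ) :=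
  [(2, -1, 5, -2), (-3, 1, 5, -2), (3, -2, 5, -3), (-2, -1, 5, 2), (-4, -5, 5, 6), (-13, 5, 5, -2), (13, 5, 5, 2),
   (-3, -2, 5, 3), (-1, 3, 0, -1), (-1, -1, 5, 4), (-7, 11, 5, -8), (7, 11, 5, 8), (-3, 4, 5, -7), (-1, 1, 5, -6),
   (-7, -10, 5, 7), (-2, 1, 5, -3), (-9, 7, 5, -4), (-2, 3, 5, -8), (-8, 3, 5, -2), (-4, -1, 5, 1), (1, 0, 5, 1),
   (3, 1, 5, 2), (8, 11, 5, 7), (3, 4, 5, 7), (8, -5, 5, -3), (-8, 11, 5, -7), (-8, -5, 5, 3), (2, 1, 5, 3),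
   (-7, 4, 5, -3), (8, 3, 5, 2), (-1, -3, 0, -1), (1, -1, 5, -4), (2, -3, 5, -7), (-9, -2, 5, 1), (-4, 3, 5, -4),
   (4, -5, 5, -6), (4, 3, 5, 4), (7, 4, 5, 3), (9, 7, 5, 4), (9, -2, 5, -1), (7, -3, 5, -2), (-12, -5, 5, 2),
   (-1, 0, 0, -1), (-2, -3, 5, 7), (-1, 1, 0, -1), (1, 1, 5, 6), (-1, -2, 0, -1), (-1, -1, 0, -1), (-1, 0, 5, -1),
   (12, -5, 5, -2), (2, 3, 5, 8), (-7, -3, 5, 2), (4, -1, 5, -1), (4, 7, 5, 9), (-1, 2, 0, -1), (-4, 7, 5, -9)]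

/-- Fifty-six representatives with bottom row proportional to `(1, 0)` modulo `5` (of the classes of `SL₂(ℤ)` modulo `(* 7*; 35* *)`). -/
def LH10 : List (ℤ × ℤ × ℤ × ℤ) :=
  [(3, -1, 1, 0), (-10, 7, 7, -5), (5, 8, 3, 5), (-3, -8, 2, 5), (-2, 9, 1, -5), (1, 2, 2, 5), (3, -8, 2, -5),
   (-11, -7, 8, 5), (-1, 1, 4, -5), (5, -13, 2, -5), (-7, -9, 4, 5), (-1, -1, 6, 5), (3, 7, 2, 5), (7, -9, 4, -5),
   (1, -3, 2, -5), (-5, 12, 2, -5), (-4, -7, 3, 5), (11, -8, 7, -5), (1, -1, 6, -5), (4, -7, 3, -5), (5, 12, 2, 5),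
   (0, -1, 1, -5), (11, -7, 8, -5), (4, -3, 7, -5), (5, 4, 6, 5), (-1, 4, 1, -5), (-3, -4, 4, 5), (7, -4, 9, -5),
   (-1, -2, 3, 5), (-7, -4, 9, 5), (-3, 2, 7, -5), (1, -2, 3, -5), (-1, 2, 2, -5), (-11, -8, 7, 5), (3, -4, 4, -5),
   (2, 9, 1, 5), (-2, 3, 3, -5), (-3, 7, 2, -5), (0, -1, 1, 5), (-3, -2, 8, 5), (3, -2, 8, -5), (-5, 8, 3, -5),
   (-5, 4, 6, -5), (1, -1, 1, 0), (-5, -13, 2, 5), (0, -1, 1, 0), (3, 2, 7, 5), (1, 4, 1, 5), (-1, -3, 2, 5),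
   (-2, -1, 1, 0), (-1, -1, 1, 0), (-3, -1, 1, 0), (2, -1, 1, 0), (2, 3, 3, 5), (-4, -3, 7, 5), (1, 1, 4, 5)]

/-- Fifty-six representatives with bottom row proportional to `(1, 1)` modulo `5` (of the classes of `SL₂(ℤ)` modulo `(* 7*; 35* *)`). -/
def LH11 : List (ℤ × ℤ × ℤ × ℤ) :=
  [(7, -2, 4, -1), (-2, 7, 1, -4), (1, -1, 3, -2), (-5, 2, 7, -3), (1, -2, 2, -3), (4, -3, 3, -2), (-3, 8, 4, -11),
   (4, 1, 7, 2), (1, -5, 1, -4), (-6, 11, 7, -13), (-2, -3, 1, 1), (-3, 4, 2, -3), (2, -5, 3, -7), (5, -8, 2, -3),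
   (3, -1, 4, -1), (-3, -1, 7, 2), (1, 0, 6, 1), (0, -1, 1, 6), (3, 2, 1, 1), (-3, -7, 4, 9), (-5, 7, 2, -3),
   (11, 3, 7, 2), (6, -7, 7, -8), (-3, -4, 1, 1), (2, -1, 7, -3), (1, 3, 2, 7), (-1, -2, 1, 1), (-1, -4, 2, 7),
   (8, -3, 11, -4), (-2, 1, 3, -2), (0, -1, 1, -4), (-5, -1, 6, 1), (-7, 6, 8, -7), (-3, -11, 2, 7), (2, 1, 1, 1),
   (-9, 5, 16, -9), (-1, 0, 4, -1), (11, -6, 13, -7), (-5, 1, 4, -1), (-5, -2, 8, 3), (-5, 3, 3, -2), (0, -1, 1, 1),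
   (11, 4, 8, 3), (-1, 2, 3, -7), (-1, 3, 1, -4), (-8, 5, 3, -2), (-4, -11, 3, 8), (1, 5, 1, 6), (7, -5, 3, -2),
   (7, 3, 9, 4), (3, -5, 2, -3), (-1, 1, 2, -3), (-1, -3, 3, 8), (2, 5, 3, 8), (3, 1, 8, 3), (1, 0, 1, 1)]

/-- Fifty-six representatives with bottom row proportional to `(1, 2)` modulo `5` (of the classes of `SL₂(ℤ)` modulo `(* 7*; 35* *)`). -/
def LH12 : List (ℤ × ℤ × ℤ × ℤ) :=
  [(0, -1, 1, 2), (3, -10, 1, -3), (3, 2, 4, 3), (1, 0, 3, 1), (1, -4, 1, -3), (-1, 7, 1, -8), (-1, -1, 4, 3),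
   (10, 3, 3, 1), (5, -3, 2, -1), (2, -7, 1, -3), (2, -3, 3, -4), (-2, -5, 1, 2), (-1, 1, 3, -4), (-1, -5, 2, 9),
   (-5, -3, 7, 4), (1, 1, 6, 7), (-5, -4, 4, 3), (-2, -1, 3, 1), (-3, 8, 1, -3), (5, -11, 6, -13), (5, -7, 3, -4),
   (-1, -3, 1, 2), (-1, 0, 7, -1), (1, -1, 2, -1), (2, 1, 7, 4), (-8, -3, 3, 1), (-1, 0, 2, -1), (-2, 5, 1, -3),
   (11, 5, 13, 6), (-1, 2, 1, -3), (-5, -2, 3, 1), (-4, 5, 3, -4), (6, -1, 7, -1), (1, 1, 1, 2), (4, 1, 3, 1),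
   (-5, 1, 9, -2), (-3, 5, 4, -7), (1, 6, 1, 7), (3, -2, 2, -1), (-7, -1, 8, 1), (7, 2, 3, 1), (4, 5, 7, 9),
   (-3, 1, 2, -1), (-5, -6, 6, 7), (1, -1, 7, -6), (1, -2, 4, -7), (-6, 5, 7, -6), (-3, -7, 1, 2), (0, -1, 1, -3),
   (-7, 3, 2, -1), (2, 3, 1, 2), (0, -1, 1, 7), (5, -4, 9, -7), (7, 5, 4, 3), (-5, 2, 2, -1), (3, 5, 1, 2)]

/-- Fifty-six representatives with bottom row proportional to `(1, 3)` modulo `5` (of the classes of `SL₂(ℤ)` modulo `(* 7*; 35* *)`). -/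
def LH13 : List (ℤ × ℤ × ℤ × ℤ) :=
  [(5, -6, 6, -7), (1, 1, 3, 4), (8, -3, 3, -1), (-5, -3, 2, 1), (-1, -4, 1, 3), (-5, -11, 6, 13), (-3, 2, 4, -3),
   (0, -1, 1, -7), (7, -1, 8, -1), (-11, 5, 13, -6), (0, -1, 1, 3), (3, 1, 2, 1), (-4, 1, 3, -1), (-2, 3, 1, -2),
   (2, -5, 1, -2), (5, 2, 2, 1), (5, -4, 4, -3), (5, -2, 3, -1), (-1, 1, 6, -7), (0, -1, 1, -2), (-10, 3, 3, -1),
   (2, -1, 3, -1), (-6, -1, 7, 1), (-1, 1, 1, -2), (-1, 0, 3, -1), (1, 7, 1, 8), (1, 0, 7, 1), (1, 0, 2, 1),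
   (-1, -2, 4, 7), (-2, -7, 1, 3), (-5, -4, 9, 7), (-1, -1, 2, 1), (3, -7, 1, -2), (6, 5, 7, 6), (1, -1, 4, -3),
   (5, 1, 9, 2), (-7, 2, 3, -1), (3, 8, 1, 3), (5, -3, 7, -4), (-2, 1, 7, -4), (7, 3, 2, 1), (-2, -3, 3, 4),
   (-3, -10, 1, 3), (-4, 5, 7, -9), (2, 5, 1, 3), (-7, 5, 4, -3), (1, -3, 1, -2), (-5, -7, 3, 4), (-1, -1, 7, 6),
   (1, 2, 1, 3), (3, 5, 4, 7), (-3, 5, 1, -2), (-1, 6, 1, -7), (4, 5, 3, 4), (1, -5, 2, -9), (-3, -2, 2, 1)]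

/-- Fifty-six representatives with bottom row proportional to `(1, 4)` modulo `5` (of the classes of `SL₂(ℤ)` modulo `(* 7*; 35* *)`). -/
def LH14 : List (ℤ × ℤ × ℤ × ℤ) :=
  [(1, 1, 2, 3), (5, -1, 6, -1), (-7, 3, 9, -4), (-1, -2, 2, 3), (1, 0, 4, 1), (-11, 4, 8, -3), (-3, -5, 2, 3),
   (-1, 0, 1, -1), (4, -11, 3, -8), (0, -1, 1, 4), (-7, -2, 4, 1), (-1, -1, 3, 2), (1, -4, 2, -7), (3, -11, 2, -7),
   (-1, -5, 1, 4), (7, 6, 8, 7), (-7, -5, 3, 2), (-4, 3, 1, -1), (5, 7, 2, 3), (1, 3, 1, 4), (1, 2, 3, 7), (2, 1, 3, 2),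
   (3, -7, 4, -9), (-2, -1, 7, 3), (2, -3, 1, -1), (8, 5, 3, 2), (-3, 2, 1, -1), (5, 2, 7, 3), (-1, 3, 2, -7),
   (-6, -7, 7, 8), (5, 1, 4, 1), (-5, -8, 2, 3), (-1, 0, 6, -1), (5, -2, 8, -3), (2, 7, 1, 4), (1, -2, 1, -1),
   (6, 11, 7, 13), (0, -1, 1, -1), (3, 4, 2, 3), (-4, -3, 3, 2), (-11, 3, 7, -2), (1, -3, 3, -8), (-1, 5, 1, -6),
   (-2, -5, 3, 7), (3, 8, 4, 11), (3, -1, 7, -2), (-2, 1, 1, -1), (-3, 1, 8, -3), (5, 3, 3, 2), (-11, -6, 13, 7),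
   (0, -1, 1, -6), (-8, -3, 11, 4), (-4, 1, 7, -2), (-3, -1, 4, 1), (-2, 5, 3, -8), (-5, -9, 9, 16)]

/-- The forty-eight representatives of `Γ₀(35) \ SL₂(ℤ)`. -/
def LHO : List (ℤ × ℤ × ℤ × ℤ) :=
  [(2, 1, 5, 3), (2, -1, 5, -2), (-2, -1, 5, 2), (-2, 1, 5, -3), (4, -1, 5, -1), (-4, -1, 5, 1), (-2, -3, 5, 7),
   (-1, 0, 0, -1), (0, -1, 1, 0), (-1, 4, 1, -5), (1, -2, 3, -5), (-1, -2, 3, 5), (1, 4, 1, 5), (-3, 2, 7, -5),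
   (1, 2, 2, 5), (-1, 2, 2, -5), (1, -1, 3, -2), (0, -1, 1, 1), (-1, 2, 3, -7), (-1, 1, 2, -3), (-1, 0, 4, -1),
   (-5, -1, 6, 1), (-3, -1, 7, 2), (0, -1, 1, -4), (1, 0, 3, 1), (2, 1, 7, 4), (-1, 0, 2, -1), (-1, 1, 3, -4),
   (-1, -1, 4, 3), (1, -2, 4, -7), (0, -1, 1, 2), (0, -1, 1, -3), (-2, 1, 7, -4), (1, 0, 2, 1), (-1, 0, 3, -1),
   (1, -1, 4, -3), (-1, -2, 4, 7), (1, 1, 3, 4), (0, -1, 1, -2), (0, -1, 1, 3), (-1, 0, 1, -1), (-1, -1, 3, 2),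
   (1, 0, 4, 1), (-1, 5, 1, -6), (-2, -1, 7, 3), (1, 1, 2, 3), (0, -1, 1, 4), (-1, 3, 2, -7)]

/-- The content of E1A. -/
def HE1a : Prop := ∀ (k : ℕ) (G : ℤ → ℤ → ℂ), 2 ≤ k → BalEH k G →
  ((((fun p : Pt (k - 1) => edgeH 1 1 0 0 1 G p.1 p.2), (fun p : Pt (k - 1) => edgeH 1 1 0 1 2 G p.1 p.2)),
    ((fun p : Pt (k - 1) => edgeH 1 1 0 1 1 G p.1 p.2), (fun p : Pt (k - 1) => edgeH 1 1 1 3 2 G p.1 p.2))),
    ((((fun p : Pt (k - 1) => edgeH 1 1 0 2 1 G p.1 p.2), (fun p : Pt (k - 1) => edgeH 1 8 5 3 2 G p.1 p.2)),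
    ((fun p : Pt (k - 1) => edgeH 1 5 2 12 5 G p.1 p.2), (fun p : Pt (k - 1) => edgeH 1 12 5 2 1 G p.1 p.2))),
    (((fun p : Pt (k - 1) => edgeH 1 1 0 3 1 G p.1 p.2), (fun p : Pt (k - 1) => edgeH 1 3 1 13 5 G p.1 p.2)),
    ((fun p : Pt (k - 1) => edgeH 1 1 0 7 2 G p.1 p.2), (fun p : Pt (k - 1) => edgeH 1 1 1 2 3 G p.1 p.2))))) ∈ subEH (k - 1)

/-- E1A (from EDG, PLA, TYP). Even exponent, `m = k - 1`, `μ = 1`: `f = {∞, 0}`, `L = {∞, 1/2}`, `F1 = {∞, 1}`, `D = {1, 3/2}`, `F2 = {∞, 2}`, `A = {8/5, 3/2}`, `B = {5/2, 12/5}`, `C = {12/5, 2}`, `F3 = {∞, 3}`, `E = {3, 13/5}`, `J = {∞, 7/2}`, `H = {1, 2/3}`. (i) `anti7`: `(1 i7^(k-1); 0 1) g` has coordinates `(x + i 7^(k-2), y)`,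
`(1 0; 5i7^(k-1) 1) g` has `(x, y + 5i 7^(k-2))` for standard `g` (`i ↦ 5i` is a bijection modulo `7`). (ii) By the rule at the head of this file: `f(ng p) = f(p)`, `f(swH p) = -{0, ∞} = f(p)`; `J(dR 1 p) = J(p)` (`(-1 7; 0 1)` fixes `∞`, `7/2`), `J(c6H p) = -{7/2, ∞} = J(p)`; `D(rDH p) = -{3/2, 1} = D(p)`, `A(rAH p) = -{3/2, 8/5} = A(p)`,
`C(rCH p) = -{2, 12/5} = C(p)`, `H(rHH p) = -{2/3, 1} = H(p)`; `B(cBH p) = -B(p)` (`(49 -120; 20 -49)` fixes `5/2`, `12/5`), `E(cEH p) = -E(p)` (`(14 -39; 5 -14)` fixes `3`, `13/5`). (iii) Tile `∞, 1/2, 2/5, 0`: `L(swH p) = -{0, 2/5}`: `aaH f L p = {∞,0} - {∞,1/2} + {0,2/5} = {1/2, 2/5}` (as `{u,v} = G(gu) - G(gv)`). (iv) `bbH p = {∞,1} + {1,3/2} - {∞,2} - {8/5,3/2} = {2, 8/5}`.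
(v) `ccH p = {∞,2} - {5/2,12/5} - {12/5,2} - {∞,3} - {3,13/5} = {13/5, 5/2}`; `ccH (g2H p) = -{2/3, 3/5}`, so `hhH p = {∞,1/2} - {∞,1} - {1,2/3} - {2/3,3/5} = {3/5, 1/2}`. (vi) `F3(c6H p) = -{7/2, 17/5}`, `kkH p = {∞,3} - {7/2,17/5} - {∞,7/2} = {17/5, 3}`. (vii) Tile `8/5, 2, 9/5, 5/3`: `bbH (c8H p) = -{9/5, 5/3}`, `aaH (g4H p) = {9/5, 2}` (no sign):
`yyH p = {2,8/5} - {9/5,5/3} + {9/5,2} = {5/3, 8/5}`, and `yyH (d8H p) = -yyH p` (`(49 -80; 30 -49)` fixes `5/3`, `8/5`). (viii) Tile `3/5, 5/9, 11/20, 1/2`: `hhH (c9H p) = -{5/9, 11/20}`, `kkH (g5H p) = {5/9, 3/5}` (no sign): `zzH p = {3/5,1/2} - {5/9,11/20} + {5/9,3/5} = {11/20, 1/2}`, and `zzH (d9H p) = -zzH p` (`(21 -11; 40 -21)` fixes `11/20`, `1/2`).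
Models: `Pool/Agent/Helper61/Q7P5/M_E1A.lean`, `Pool/Agent/Helper67/TK7/M_E1AK7.lean`. -/
def StHE1a : Prop := HEdg → HPlA → HTyp → HE1a

/-- The content of E1B. -/
def HE1b : Prop := ∀ (k : ℕ) (G : ℤ → ℤ → ℂ), 2 ≤ k → BalEH k G →
  (∀ x y : ZMod (7 ^ (k - 1)), ((edgeH 1 1 0 0 1 G x y = 0 ∧ edgeH 1 1 0 1 2 G x y = 0) ∧
    (edgeH 1 1 0 1 1 G x y = 0 ∧ edgeH 1 1 1 3 2 G x y = 0)) ∧
    ((edgeH 1 1 0 2 1 G x y = 0 ∧ edgeH 1 8 5 3 2 G x y = 0) ∧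
    (edgeH 1 5 2 12 5 G x y = 0 ∧ edgeH 1 12 5 2 1 G x y = 0)) ∧
    ((edgeH 1 1 0 3 1 G x y = 0 ∧ edgeH 1 3 1 13 5 G x y = 0) ∧
    (edgeH 1 1 0 7 2 G x y = 0 ∧ edgeH 1 1 1 2 3 G x y = 0))) → EqC G 0

/-- E1B (from EDG, PLA, FAR). `~` as in E1B of Q5P3 and Q7P5 (`Pool/Agent/Helper25/Q5P3/M_E1B.lean`, `Pool/Agent/Helper75/Q7P5/M_E1B.lean`), invariant under `(a 7b; 7c d)` of type `HTy`, `*`, `b = (0 1; 5 0)`. Given: `∞ ~ 0`, `∞ ~ 1/2`, `∞ ~ 1`, `1 ~ 3/2`, `∞ ~ 2`, `8/5 ~ 3/2`, `5/2 ~ 12/5`, `12/5 ~ 2`, `∞ ~ 3`, `3 ~ 13/5`, `∞ ~ 7/2`, `1 ~ 2/3`: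
all these are equivalent, with `*` also their negatives. Then (apply the word, then the matrix to a known equivalence): `∞ ~ 1/5` (`0 ~ 1` by `b`); `∞ ~ 2/5` (`0 ~ 1/2` by `b`); `∞ ~ 4` (`∞ ~ -3` by `(1 7; 0 1)`); `-1/5 ~ -2/7` (`2/3 ~ ∞` by `(-10 7; 35 -25)`); `-2/3 ~ -5/7` (`1/5 ~ ∞` by `(25 -7; -35 10)`); `-5/7 ~ -3/4` (`∞ ~ 2/5` by `(25 -7; -35 10)`); `1/5 ~ 1/7` (`-3/2 ~ ∞` by `(5 7; 35 50)`); `0 ~ 7/5` (`∞ ~ 1/7` by `b`); `1/7 ~ 1/6` (`∞ ~ -8/5` by `(5 7; 35 50)`); `7/5 ~ 10/7` (`0 ~ ∞` by `(-50 -7; -35 -5)`); `7/5 ~ 4/3` (`∞ ~ -2` by `b`, `(-50 -7; -35 -5)`); `7/5 ~ 11/8` (`∞ ~ -3` by `b`, `(-50 -7; -35 -5)`); `-8/5 ~ -11/7` (`-1 ~ ∞` by `(-55 -63; 35 40)`); `-2 ~ -9/5` (`-2/5 ~ -1/2` by `(65 28; -35 -15)`); `-9/5 ~ -7/4` (`-2 ~ ∞` by `b`, `(-61 -7; 35 4)`); `-7/4 ~ -5/3` (`∞ ~ -8/5` by `b`, `(-61 -7; 35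 4)`); `7/5 ~ 5/4` (`∞ ~ -5/3` by `b`, `(-50 -7; -35 -5)`); `2/5 ~ 3/7` (`2 ~ ∞` by `(15 -28; 35 -65)`); `-12/5 ~ -7/3` (`2 ~ ∞` by `b`, `(82 -7; -35 3)`); `1 ~ 7/8` (`-13/5 ~ ∞` by `b`, `(92 7; 105 8)`); `1 ~ 6/7` (`1 ~ 7/8` by `b`, `(65 -14; 70 -15)`); `2/3 ~ 3/5` (`13/5 ~ 5/2` by `b`, `(89 -7; 140 -11)`); `0 ~ 1/3` (`∞ ~ 3/5` by `b`); `-2/7 ~ -1/4` (`∞ ~ 3/5` by `(-10 7; 35 -25)`); `0 ~ 4/5` (`∞ ~ 1/4` by `b`); `-5/7 ~ -8/11` (`∞ ~ 3/5` by `(25 -7; -35 10)`); `-13/5 ~ -8/3` (`1/5 ~ 1/4` by `(92 -21; -35 8)`); `-2/5 ~ -3/8` (`-1/2 ~ -3/5` by `(40 21; -105 -55)`); `-3/5 ~ -4/7` (`-3 ~ ∞` by `(20 63; -35 -110)`); `-5/7 ~ -7/9` (`0 ~ 4/7` by `b`, `(25 -7; -35 10)`); `3/5 ~ 5/8` (`5/2 ~ 12/5` by `b`, `(89 -7; 140 -11)`); `-5/7 ~ -5/6` (`0 ~ 5/8` by `b`, `(25 -7; -35 10)`); `-5/6 ~ -11/13` (`-2 ~ -5/2` by `b`, `(235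 21; -280 -25)`); `0 ~ 4/15` (`∞ ~ 3/4` by `b`); `0 ~ 8/15` (`∞ ~ 3/8` by `b`); `-1/2 ~ -7/13` (`3/4 ~ 7/9` by `(-37 28; 70 -53)`); `-7/2 ~ -10/3` (`-7/13 ~ -1/2` by `(116 63; -35 -19)`); `3 ~ 16/5` (`-1/4 ~ -4/15` by `(109 28; 35 9)`); `16/5 ~ 13/4` (`1/2 ~ 8/15` by `(110 -63; 35 -20)`); `7/13 ~ 5/9` (`7/2 ~ 13/4` by `(-19 63; -35 116)`); `4/7 ~ 9/16` (`-4/7 ~ -5/9` by `(99 56; 175 99)`). With `*`: `∞, 0, ±1, ±1/2, ±2, ±3, ±1/3, ±3/2, ±2/3, ±3/4, ±4/3, ±4, ±1/4, ±5/4, ±2/5, ±4/5, ±5/3, ±1/5, ±3/5, ±5/2, ±1/6, ±5/6, ±3/7, ±5/7, ±7/4, ±2/7, ±7/3, ±6/7, ±4/7, ±1/7, ±7/2, ±7/5, ±8/3, ±8/5, ±3/8, ±5/8, ±7/8, ±9/5, ±5/9, ±7/9, ±10/3, ±10/7, ±11/8, ±8/11, ±11/7, ±12/5, ±13/5, ±11/13, ±9/16` are equivalent: both cusps of every matrix in the six lists. Every matrix of `SL₂(ℤ)` is `g' ρ`, `g' = (a 7b; 35c d)` of determinant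 one,
`ρ` in the list of the class of its bottom row modulo `5` up to units (`decide` on `ZMod 7` for each list: exactly one `ρ` satisfies `7 ∣ q r1 - p r2`, `7 ∣ r r4 - s r3`). FAR. Model for lists of 56: `Pool/Agent/Helper77/TK7/M_E1BK7.lean`. -/
def StHE1b : Prop := HEdg → HPlA → StFar → HE1b

/-- The content of O1. -/
def HO1 : Prop := ∀ (k : ℕ) (G : ℤ → ℤ → ℂ), 1 ≤ k → BalOH k G →
  ((((fun p : Pt k => edgeH 0 1 0 0 1 G p.1 p.2), (fun p : Pt k => edgeH 0 1 0 1 2 G p.1 p.2)),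
    ((fun p : Pt k => edgeH 0 1 0 2 7 G p.1 p.2), (fun p : Pt k => edgeH 0 1 0 1 3 G p.1 p.2))) ∈ subOH k) ∧
  ((∀ x y : ZMod (7 ^ k), (edgeH 0 1 0 0 1 G x y = 0 ∧ edgeH 0 1 0 1 2 G x y = 0) ∧
    (edgeH 0 1 0 2 7 G x y = 0 ∧ edgeH 0 1 0 1 3 G x y = 0)) → EqC G 0)

/-- O1 (from EDG, PLA, TYP, FAR). Odd exponent, `m = k`, `μ = 0`, `b = (0 1; 35 0)`: `f = {∞, 0}`, `l = {∞, 1/2}`, `e2 = {∞, 2/7}`, `e3 = {∞, 1/3}`. `f(ng p) = f(p)`, `f(swH p) = f(p)`; `l(dR 0 p) = l(p)`, `l(cOH p) = -{1/2, ∞} = l(p)` (`(35 -17; 70 -35)`); `e2(r2H p) = {2/7, ∞} = -e2(p)` (`(10 -3; 35 -10)` in the group: no sign), `e3(r3H p) = -{1/3, ∞} = e3(p)`.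
Triangle `∞, 1/5, 2/7`: `e3(gOH p) = -{1/5, 2/7}` (`(7 -3; 35 -14)`), so `alH e2 e3 p = {∞,2/7} - {1/5,2/7} = {∞, 1/5}`. Square `∞, 0, 1/7, 1/5`: `alH (swH p) = -{0, 1/7}`, `l(gOH p) = -{1/5, 1/7}`: `{∞,1/5} - {0,1/7} + {1/5,1/7} - {∞,0} = 0`. Injectivity (`~` as in E1B for `(a b; 7c d)` of type `HTy`, `b = (0 1; 35 0)`): given `∞ ~ 0`, `∞ ~ 1/2`, `∞ ~ 2/7`,
`∞ ~ 1/3`; `∞ ~ -1` (`∞ ~ 0` by `(1 -1; 0 1)`); `-1/3 ~ -2/5` (`∞ ~ 2/7` by `b`, `(-12 1; 35 -3)`); `-1/2 ~ -3/7` (`∞ ~ -2/5` by `b`, `(17 1; -35 -2)`); `-2/7 ~ -1/4` (`∞ ~ -2/5` by `(-10 -3; 35 10)`); `∞ ~ -4/5` (`-1/4 ~ -2/7` by `b`, `(-26 -3; 35 4)`); `-4/5 ~ -5/6` (`∞ ~ 3/7` by `b`, `(85 -4; -105 5)`). With `*`: `0, ±1, ∞, ±1/2, ±1/3, ±1/4, ±4/5, ±2/5, ±5/6, ±2/7, ±3/7` are equivalent: both cusps of every matrix in `LHO`; every matrix of `SL₂(ℤ)` is `g'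 ρ` with `g'` in `Γ₀(35)` and `ρ` in `LHO` (bottom rows modulo `35` up to units; `decide` on `ZMod 5` and `ZMod 7` separately). FAR. Models: `Pool/Agent/Helper6/Q7P5/M_O1.lean` (the same level `35`), `Pool/Agent/Helper89/TK7/M_O1K7.lean`. -/
def StHO1 : Prop := HEdg → HPlA → HTyp → StFar → HO1

/-- The dimension of the new symbols of level `5 * 7^n` (`W = -1`, `* = +1`), `n ≥ 3`. -/
def dd (n : ℕ) : ℕ :=
  if n % 2 = 1 then 36 * 49 ^ (n / 2 - 1) + 6 * 7 ^ (n / 2 - 1) else 252 * 49 ^ (n / 2 - 2) + 6 * 7 ^ (n / 2 - 2)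

/-- UB. For `n = 2k ≥ 4` the map to the twelve functions in `subEH (k-1)`, of dimension `dd n`; for `n = 2k+1 ≥ 3` the map to the four functions in `subOH k`, of dimension `dd n`. Models: `Pool/Agent/Helper53/Q7P5/M_UB.lean`, `Pool/Agent/Helper71/TK7/M_UBHK7.lean`, `Pool/Agent/Helper10/Q5P3/M_UB.lean`. -/
def StHUB : Prop := HBal → HE1a → HE1b → HO1 → HDimE → HDimO → UBH 7 dd

end Pool.Agent.Helper76.Q5P7
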