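import Pool.Agent.Helper10.W3.M_Trq
import Pool.Agent.Helper38.CV.M_Far
import Pool.Agent.Helper71.S7.M_DimK
import Pool.Agent.Helper36.S7.M_Split
import Pool.Agent.Helper42.Q5P7.M_PLA
import Pool.Agent.Helper36.Q5P7.M_EDG
import Pool.Agent.Helper85.Q5P7.M_BAL
import Pool.Agent.Helper99.Q5P7.M_TYP
import Pool.Agent.Helper8.Q5P7.M_DIM1
import Pool.Agent.Helper39.Q5P7.M_DIME
import Pool.Agent.Helper71.Q5P7.M_DIMO
import Pool.Agent.Helper16.Q5P7.M_E1A
import Pool.Agent.Helper44.Q5P7.M_E1B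
import Pool.Agent.Helper81.Q5P7.M_O1
import Pool.Agent.Helper60.Q5P7.M_UB

/-!
# Levels `5 * 7^n`, `W_5 = +1`: the upper bound for the new symbols, assembled
-/

set_option autoImplicit false

namespace Pool.Agent.Helper76.Q5P7

open Pool.Agent.Helper83.T5C

/-- Values on translated paths. -/
theorem edg75 : HEdg := Pool.Agent.Helper36.Q5P7.hEdg Pool.Agent.Helper42.Q5P7.hPlA

/-- The upper bound for the levels `5 * 7^n`. -/
theorem ub75 : UBH 7 dd := by
  have pla := Pool.Agent.Helper42.Q5P7.hPlA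
  have typ := Pool.Agent.Helper99.Q5P7.hTyp
  have dim1 := Pool.Agent.Helper8.Q5P7.hDim1 Pool.Agent.Helper10.W3.hTrq
  have dimK := Pool.Agent.Helper71.S7.hDimK Pool.Agent.Helper10.W3.hTrq
  have split := Pool.Agent.Helper36.S7.hSplit
  have far := Pool.Agent.Helper38.CV.hFar
  exact Pool.Agent.Helper60.Q5P7.hUB Pool.Agent.Helper85.Q5P7.hBal
    (Pool.Agent.Helper16.Q5P7.hE1A edg75 pla typ)
    (Pool.Agent.Helper44.Q5P7.hE1B edg75 pla far)
    (Pool.Agent.Helper81.Q5P7.hO1 edg75 pla typ far)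
    (Pool.Agent.Helper39.Q5P7.hDimE typ dimK split)
    (Pool.Agent.Helper71.Q5P7.hDimO typ dim1 dimK split)

end Pool.Agent.Helper76.Q5P7
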